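import Mathlib

/-!
# Real domination roots of paths are not dense in `[-2, 0]`
-/

set_option autoImplicit false

namespace Pool.Agent.Results.MP_130e73_co.PathGap

/-- `S` is a dominating set of `G`. -/
def IsDominating {V : Type*} (G : SimpleGraph V) (S : Finset V) : Prop :=
  ∀ v, v ∉ S → ∃ u ∈ S, G.Adj v u

/-- `d(G, i)`: the number of dominating sets with exactly `i` elements. -/
noncomputable def domCount {V : Type*} (G : SimpleGraph V) (i : ℕ) : ℕ :=
  Nat.card {S : Finset V // IsDominating G S ∧ S.card = i}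

/-- The domination polynomial `D(G, x) = ∑_{i=1}^{|V|} d(G, i) x^i`, evaluated at the real `x`. -/
noncomputable def domPoly {V : Type*} [Fintype V] (G : SimpleGraph V) (x : ℝ) : ℝ :=
  ∑ i ∈ Finset.Icc 1 (Fintype.card V), (domCount G i : ℝ) * x ^ i

/-! ### The transfer matrix -/

/-- The value of the triple `(S_n, D_n, U_n)`. -/
noncomputable def T (x : ℝ) : ℕ → ℝ × ℝ × ℝ
  | 0 => (1, 1, 0)
  | n + 1 => (x * (T x n).1 + (T x n).2.1, x * (T x n).1 + (T x n).2.2, x * (T x n).1)

/-- `f` describes a set of vertices of a path that dominates all vertices, where the state `s`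
describes the vertex before the path (`0`: selected, `1`: not selected but dominated, `2`: not
selected and not yet dominated). -/
def Dom (s : ℕ) {n : ℕ} (f : Fin n → Bool) : Prop :=
  (s = 2 → ∃ j : Fin n, j.val = 0 ∧ f j = true) ∧
    ∀ i : Fin n, f i = true ∨ (i.val = 0 ∧ s = 0) ∨
      ∃ j : Fin n, (j.val + 1 = i.val ∨ i.val + 1 = j.val) ∧ f j = true

lemma dom_cons_true (s : ℕ) {n : ℕ} (g : Fin n → Bool) :
    Dom s (Fin.cons true g : Fin (n + 1) → Bool) ↔ Dom 0 g := by
  constructor
  · rintro ⟨_, h⟩
    refine ⟨fun h => absurd h (by norm_num), fun i => ?_⟩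
    rcases h i.succ with h1 | ⟨h1, _⟩ | ⟨j, hj, h1⟩
    · left; simpa using h1
    · simp at h1
    · rcases Fin.eq_zero_or_eq_succ j with rfl | ⟨j, rfl⟩
      · right; left
        refine ⟨?_, rfl⟩
        simp at hj
        omega
      · right; right
        refine ⟨j, ?_, by simpa using h1⟩
        simp at hj
        omega
  · rintro ⟨_, h⟩
    refine ⟨fun _ => ⟨0, rfl, rfl⟩, fun i => ?_⟩
    rcases Fin.eq_zero_or_eq_succ i with rfl | ⟨i, rfl⟩
    · left; rfl
    · rcases h i with h1 | ⟨h1, _⟩ | ⟨j, hj, h1⟩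
      · left; simpa using h1
      · right; right
        exact ⟨0, Or.inl (by simp [h1]), rfl⟩
      · right; right
        refine ⟨j.succ, ?_, by simpa using h1⟩
        simp
        omega

lemma dom_cons_false0 {n : ℕ} (g : Fin n → Bool) :
    Dom 0 (Fin.cons false g : Fin (n + 1) → Bool) ↔ Dom 1 g := by
  constructor
  · rintro ⟨_, h⟩
    refine ⟨fun h => absurd h (by norm_num), fun i => ?_⟩
    rcases h i.succ with h1 | ⟨h1, _⟩ | ⟨j, hj, h1⟩
    · left; simpa using h1
    · simp at h1
    · rcases Fin.eq_zero_or_eq_succ j with rfl | ⟨j, rfl⟩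
      · simp at h1
      · right; right
        refine ⟨j, ?_, by simpa using h1⟩
        simp at hj
        omega
  · rintro ⟨_, h⟩
    refine ⟨fun h => absurd h (by norm_num), fun i => ?_⟩
    rcases Fin.eq_zero_or_eq_succ i with rfl | ⟨i, rfl⟩
    · right; left; exact ⟨rfl, rfl⟩
    · rcases h i with h1 | ⟨_, h1⟩ | ⟨j, hj, h1⟩
      · left; simpa using h1
      · exact absurd h1 (by norm_num)
      · right; right
        refine ⟨j.succ, ?_, by simpa using h1⟩
        simp
        omega

lemma dom_cons_false1 {n : ℕ} (g : Fin n → Bool) :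
    Dom 1 (Fin.cons false g : Fin (n + 1) → Bool) ↔ Dom 2 g := by
  constructor
  · rintro ⟨_, h⟩
    refine ⟨fun _ => ?_, fun i => ?_⟩
    · rcases h 0 with h1 | ⟨_, h1⟩ | ⟨j, hj, h1⟩
      · exact absurd h1 (by simp)
      · exact absurd h1 (by norm_num)
      · rcases Fin.eq_zero_or_eq_succ j with rfl | ⟨j, rfl⟩
        · simp at h1
        · refine ⟨j, ?_, by simpa using h1⟩
          simp at hj
          omega
    · rcases h i.succ with h1 | ⟨h1, _⟩ | ⟨j, hj, h1⟩
      · left; simpa using h1
      · simp at h1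
      · rcases Fin.eq_zero_or_eq_succ j with rfl | ⟨j, rfl⟩
        · simp at h1
        · right; right
          refine ⟨j, ?_, by simpa using h1⟩
          simp at hj
          omega
  · rintro ⟨h0, h⟩
    refine ⟨fun h => absurd h (by norm_num), fun i => ?_⟩
    rcases Fin.eq_zero_or_eq_succ i with rfl | ⟨i, rfl⟩
    · obtain ⟨j, hj, h1⟩ := h0 rfl
      right; right
      refine ⟨j.succ, ?_, by simpa using h1⟩
      simp
      omega
    · rcases h i with h1 | ⟨_, h1⟩ | ⟨j, hj, h1⟩
      · left; simpa using h1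
      · exact absurd h1 (by norm_num)
      · right; right
        refine ⟨j.succ, ?_, by simpa using h1⟩
        simp
        omega

lemma dom_cons_false2 {n : ℕ} (g : Fin n → Bool) :
    ¬ Dom 2 (Fin.cons false g : Fin (n + 1) → Bool) := by
  rintro ⟨h0, _⟩
  obtain ⟨j, hj, h1⟩ := h0 rfl
  have : j = 0 := Fin.ext hj
  subst this
  simp at h1

open Classical in
/-- The weighted number of dominating continuations. -/
noncomputable def W (x : ℝ) (s n : ℕ) : ℝ :=
  ∑ f : Fin n → Bool, if Dom s f then ∏ i, (if f i = true then x else 1) else 0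

lemma W_succ (x : ℝ) (s n : ℕ) : W x s (n + 1) = x * W x 0 n +
    ∑ g : Fin n → Bool, (by classical exact if Dom s (Fin.cons false g : Fin (n + 1) → Bool) then
      ∏ i, (if g i = true then x else 1) else 0) := by
  classical
  unfold W
  rw [← (Fin.consEquiv (fun _ : Fin (n + 1) => Bool)).sum_comp, Fintype.sum_prod_type,
    Fintype.sum_bool]
  congr 1
  · rw [Finset.mul_sum]
    apply Finset.sum_congr rfl
    intro g _
    have h1 : (Fin.consEquiv (fun _ : Fin (n + 1) => Bool)) (true, g) =
        (Fin.cons true g : Fin (n + 1) → Bool) := rfl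
    rw [h1, Fin.prod_univ_succ]
    by_cases h : Dom 0 g
    · rw [if_pos ((dom_cons_true s g).2 h), if_pos h]
      simp
    · rw [if_neg (fun hh => h ((dom_cons_true s g).1 hh)), if_neg h, mul_zero]
  · apply Finset.sum_congr rfl
    intro g _
    have h1 : (Fin.consEquiv (fun _ : Fin (n + 1) => Bool)) (false, g) =
        (Fin.cons false g : Fin (n + 1) → Bool) := rfl
    rw [h1, Fin.prod_univ_succ]
    by_cases h : Dom s (Fin.cons false g : Fin (n + 1) → Bool)
    · rw [if_pos h, if_pos h]
      simp
    · rw [if_neg h, if_neg h]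

lemma W_eq (x : ℝ) (n : ℕ) : (W x 0 n, W x 1 n, W x 2 n) = T x n := by
  classical
  induction n with
  | zero =>
    have h0 : ∀ s f, s ≠ 2 → Dom s (f : Fin 0 → Bool) := fun s f hs =>
      ⟨fun h => absurd h hs, fun i => i.elim0⟩
    have h2 : ∀ f, ¬ Dom 2 (f : Fin 0 → Bool) := fun f h => by
      obtain ⟨j, _⟩ := h.1 rfl
      exact j.elim0
    simp [W, T, h0, h2]
  | succ n ih =>
    have i0 : W x 0 n = (T x n).1 := by rw [← ih]
    have i1 : W x 1 n = (T x n).2.1 := by rw [← ih]
    have i2 : W x 2 n = (T x n).2.2 := by rw [← ih]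
    have e0 : W x 0 (n + 1) = x * W x 0 n + W x 1 n := by
      rw [W_succ]
      congr 1
      apply Finset.sum_congr rfl
      intro g _
      simp only [dom_cons_false0]
    have e1 : W x 1 (n + 1) = x * W x 0 n + W x 2 n := by
      rw [W_succ]
      congr 1
      apply Finset.sum_congr rfl
      intro g _
      simp only [dom_cons_false1]
    have e2 : W x 2 (n + 1) = x * W x 0 n := by
      rw [W_succ]
      have : ∀ g : Fin n → Bool, ¬ Dom 2 (Fin.cons false g : Fin (n + 1) → Bool) :=
        fun g => dom_cons_false2 g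
      simp [this]
    rw [e0, e1, e2, i0, i1, i2]
    rfl

lemma isDominating_iff (n : ℕ) (f : Fin n → Bool) :
    IsDominating (SimpleGraph.pathGraph n) (Finset.univ.filter (fun i => f i = true)) ↔ Dom 1 f := by
  unfold IsDominating
  constructor
  · intro h
    refine ⟨fun h => absurd h (by norm_num), fun i => ?_⟩
    by_cases hi : f i = true
    · exact Or.inl hi
    · obtain ⟨u, hu, hadj⟩ := h i (fun hh => hi (Finset.mem_filter.1 hh).2)
      right; right
      rw [SimpleGraph.pathGraph_adj] at hadj
      exact ⟨u, hadj.symm, (Finset.mem_filter.1 hu).2⟩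
  · rintro ⟨_, h⟩ v hv
    rcases h v with h1 | ⟨_, h1⟩ | ⟨j, hj, h1⟩
    · exact absurd (Finset.mem_filter.2 ⟨Finset.mem_univ v, h1⟩) hv
    · exact absurd h1 (by norm_num)
    · refine ⟨j, Finset.mem_filter.2 ⟨Finset.mem_univ j, h1⟩, ?_⟩
      rw [SimpleGraph.pathGraph_adj]
      exact hj.symm

lemma domPoly_path (n : ℕ) (hn : 1 ≤ n) (x : ℝ) :
    domPoly (SimpleGraph.pathGraph n) x = (T x n).2.1 := by
  classical
  have hW : (T x n).2.1 = W x 1 n := by rw [← W_eq]
  rw [hW]
  -- the sum over dominating sets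
  have h1 : W x 1 n = ∑ S : Finset (Fin n),
      if IsDominating (SimpleGraph.pathGraph n) S then x ^ S.card else 0 := by
    unfold W
    refine Fintype.sum_bijective (fun f : Fin n → Bool => Finset.univ.filter (fun i => f i = true))
      ⟨?_, ?_⟩ _ _ ?_
    · intro f g h
      funext i
      have h2 := congrArg (fun S : Finset (Fin n) => i ∈ S) h
      simp only [Finset.mem_filter, Finset.mem_univ, true_and, eq_iff_iff] at h2
      cases hf : f i <;> cases hg : g i <;> simp_all
    · intro S
      refine ⟨fun i => decide (i ∈ S), ?_⟩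
      ext i
      simp
    · intro f
      simp only [isDominating_iff]
      split_ifs with h
      · rw [Finset.prod_ite, Finset.prod_const, Finset.prod_const, one_pow, mul_one]
      · rfl
  rw [h1]
  unfold domPoly
  have h2 : ∀ i, (domCount (SimpleGraph.pathGraph n) i : ℝ) * x ^ i =
      ∑ S : Finset (Fin n), if (IsDominating (SimpleGraph.pathGraph n) S ∧ S.card = i) then
        x ^ S.card else 0 := by
    intro i
    unfold domCount
    rw [Nat.card_eq_fintype_card, Fintype.card_subtype, ← Finset.sum_filter]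
    rw [Finset.sum_congr rfl (fun S hS => by rw [(Finset.mem_filter.1 hS).2.2])]
    rw [Finset.sum_const, nsmul_eq_mul]
  rw [Finset.sum_congr rfl (fun i _ => h2 i), Finset.sum_comm]
  apply Finset.sum_congr rfl
  intro S _
  by_cases hS : IsDominating (SimpleGraph.pathGraph n) S
  · have hS1 : 1 ≤ S.card := by
      rw [Nat.one_le_iff_ne_zero, Ne, Finset.card_eq_zero]
      rintro rfl
      obtain ⟨u, hu, _⟩ := hS ⟨0, hn⟩ (Finset.notMem_empty _)
      exact absurd hu (Finset.notMem_empty _)
    have hS2 : S.card ≤ Fintype.card (Fin n) := Finset.card_le_univ S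
    simp only [hS, true_and, if_true]
    rw [Finset.sum_ite_eq]
    rw [if_pos (Finset.mem_Icc.2 ⟨hS1, hS2⟩)]
  · simp [hS]

/-! ### The recurrence -/

/-- The value of the domination polynomial of the path. -/
noncomputable def P (x : ℝ) (n : ℕ) : ℝ := (T x n).2.1

lemma P_rec (x : ℝ) (n : ℕ) : P x (n + 5) = x * (P x (n + 4) + P x (n + 3) + P x (n + 2)) := by
  simp only [P, T]
  ring

lemma T_cont (n : ℕ) : Continuous (fun x => T x n) := by
  induction n with
  | zero => exact continuous_const
  | succ n ih =>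
    have h1 : Continuous (fun x => (T x n).1) := ih.fst
    have h2 : Continuous (fun x => (T x n).2.1) := ih.snd.fst
    have h3 : Continuous (fun x => (T x n).2.2) := ih.snd.snd
    exact ((continuous_id.mul h1).add h2).prodMk
      (((continuous_id.mul h1).add h3).prodMk (continuous_id.mul h1))

lemma P_cont (n : ℕ) : Continuous (fun x => P x n) := (T_cont n).snd.fst

/-- The invariant cone. -/
def Good (a b c : ℝ) : Prop :=
  0 < a ∧ 11 / 10 * a < b ∧ b < 46 / 25 * a ∧ 11 / 10 * b < c ∧ c < 46 / 25 * b

lemma good_step {t a b c : ℝ} (h1 : 1.89 < t) (h2 : t < 1.93) (h : Good a b c) :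
    Good b c (t * (c - b + a)) := by
  obtain ⟨ha, hab, hba, hbc, hcb⟩ := h
  have hb : 0 < b := by linarith
  have hc : 0 < c := by linarith
  have ht : 0 < t := by linarith
  refine ⟨hb, hbc, hcb, ?_, ?_⟩
  · -- lower bound
    have e1 : 11 / 10 * c < 1.89 * (c - b + a) := by
      have : b - a < (21 / 46) * b := by linarith
      nlinarith
    have e2 : 0 < c - b + a := by nlinarith
    nlinarith
  · have e1 : 1.93 * (c - b + a) < 46 / 25 * c := by nlinarith
    have e2 : 0 < c - b + a := by nlinarith
    nlinarith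

lemma good_all (x : ℝ) (h1 : -1.93 < x) (h2 : x < -1.89)
    (h : Good (P x 16) (-P x 17) (P x 18)) (m : ℕ) :
    Good ((-1) ^ m * P x (m + 16)) (-((-1) ^ m * P x (m + 17))) ((-1) ^ m * P x (m + 18)) := by
  induction m with
  | zero => simpa using h
  | succ m ih =>
    have h3 := good_step (t := -x) (by linarith) (by linarith) ih
    have e1 : (-1 : ℝ) ^ (m + 1) * P x (m + 1 + 16) = -((-1) ^ m * P x (m + 17)) := by
      rw [pow_succ, show m + 1 + 16 = m + 17 by ring]; ring
    have e2 : -((-1 : ℝ) ^ (m + 1) * P x (m + 1 + 17)) = (-1) ^ m * P x (m + 18) := by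
      rw [pow_succ, show m + 1 + 17 = m + 18 by ring]; ring
    have e3 : (-1 : ℝ) ^ (m + 1) * P x (m + 1 + 18) = -x * ((-1) ^ m * P x (m + 18) -
        -((-1) ^ m * P x (m + 17)) + (-1) ^ m * P x (m + 16)) := by
      have := P_rec x (m + 14)
      rw [pow_succ, show m + 1 + 18 = m + 14 + 5 by ring, this,
        show m + 14 + 4 = m + 18 by ring, show m + 14 + 3 = m + 17 by ring,
        show m + 14 + 2 = m + 16 by ring]
      ring
    rw [e1, e2, e3]
    exact h3

lemma T_step (x a b c : ℝ) (n : ℕ) (h : T x n = (a, b, c)) :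
    T x (n + 1) = (x * a + b, x * a + c, x * a) := by
  rw [T, h]

lemma t0 : T (-1.9) 0 = (1, 1, 0) := rfl

lemma t1 : T (-1.9) 1 =
    ((-9 / 10), (-19 / 10), (-19 / 10)) := by
  rw [T_step _ _ _ _ _ t0]
  norm_num

lemma t2 : T (-1.9) 2 =
    ((-19 / 100), (-19 / 100), (171 / 100)) := by
  rw [T_step _ _ _ _ _ t1]
  norm_num

lemma t3 : T (-1.9) 3 =
    ((171 / 1000), (2071 / 1000), (361 / 1000)) := by
  rw [T_step _ _ _ _ _ t2]
  norm_num

lemma t4 : T (-1.9) 4 =
    ((17461 / 10000), (361 / 10000), (-3249 / 10000)) := by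
  rw [T_step _ _ _ _ _ t3]
  norm_num

lemma t5 : T (-1.9) 5 =
    ((-328149 / 100000), (-364249 / 100000), (-331759 / 100000)) := by
  rw [T_step _ _ _ _ _ t4]
  norm_num

lemma t6 : T (-1.9) 6 =
    ((2592341 / 1000000), (2917241 / 1000000), (6234831 / 1000000)) := by
  rw [T_step _ _ _ _ _ t5]
  norm_num

lemma t7 : T (-1.9) 7 =
    ((-20082069 / 10000000), (13093831 / 10000000), (-49254479 / 10000000)) := by
  rw [T_step _ _ _ _ _ t6]
  norm_num

lemma t8 : T (-1.9) 8 =
    ((512497621 / 100000000), (-110985479 / 100000000), (381559311 / 100000000)) := by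
  rw [T_step _ _ _ _ _ t7]
  norm_num

lemma t9 : T (-1.9) 9 =
    ((-10847309589 / 1000000000), (-5921861689 / 1000000000), (-9737454799 / 1000000000)) := by
  rw [T_step _ _ _ _ _ t8]
  norm_num

lemma t10 : T (-1.9) 10 =
    ((146880265301 / 10000000000), (108724334201 / 10000000000), (206098882191 / 10000000000)) := by
  rw [T_step _ _ _ _ _ t9]
  norm_num

lemma t11 : T (-1.9) 11 =
    ((-1703481698709 / 100000000000), (-729736218809 / 100000000000), (-2790725040719 / 100000000000)) := by
  rw [T_step _ _ _ _ _ t10]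
  norm_num

lemma t12 : T (-1.9) 12 =
    ((25068790087381 / 1000000000000), (4458901868281 / 1000000000000), (32366152275471 / 1000000000000)) := by
  rw [T_step _ _ _ _ _ t11]
  norm_num

lemma t13 : T (-1.9) 13 =
    ((-431717992977429 / 10000000000000), (-152645488905529 / 10000000000000), (-476307011660239 / 10000000000000)) := by
  rw [T_step _ _ _ _ _ t12]
  norm_num

lemma t14 : T (-1.9) 14 =
    ((6676186977515861 / 100000000000000), (3439571749968761 / 100000000000000), (8202641866571151 / 100000000000000)) := by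
  rw [T_step _ _ _ _ _ t13]
  norm_num

lemma t15 : T (-1.9) 15 =
    ((-92451835073113749 / 1000000000000000), (-44821133907089849 / 1000000000000000), (-126847552572801359 / 1000000000000000)) := by
  rw [T_step _ _ _ _ _ t14]
  norm_num

lemma t16 : T (-1.9) 16 =
    ((1308373527318262741 / 10000000000000000), (488109340661147641 / 10000000000000000), (1756584866389161231 / 10000000000000000)) := by
  rw [T_step _ _ _ _ _ t15]
  norm_num

lemma t17 : T (-1.9) 17 =
    ((-19978003612435515669 / 100000000000000000), (-7293248355155379769 / 100000000000000000), (-24859097019046992079 / 100000000000000000)) := by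
  rw [T_step _ _ _ _ _ t16]
  norm_num

lemma t18 : T (-1.9) 18 =
    ((306649585084721000021 / 1000000000000000000), (130991098445804876921 / 1000000000000000000), (379582068636274797711 / 1000000000000000000)) := by
  rw [T_step _ _ _ _ _ t17]
  norm_num

lemma good_start : Good (P (-1.9) 16) (-P (-1.9) 17) (P (-1.9) 18) := by
  simp only [Good, P]
  rw [t16, t17, t18]
  norm_num

lemma nonzero_start : ∀ n, 4 ≤ n → n < 16 → P (-1.9) n ≠ 0 := by
  intro n h1 h2
  unfold P
  interval_cases n
  · rw [t4]; norm_num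
  · rw [t5]; norm_num
  · rw [t6]; norm_num
  · rw [t7]; norm_num
  · rw [t8]; norm_num
  · rw [t9]; norm_num
  · rw [t10]; norm_num
  · rw [t11]; norm_num
  · rw [t12]; norm_num
  · rw [t13]; norm_num
  · rw [t14]; norm_num
  · rw [t15]; norm_num

/-- **Theorem.** There is a nondegenerate interval in `[-2, 0]` containing no root of the domination
polynomial of any path with at least four vertices. -/
theorem result : ∃ a b : ℝ, -2 ≤ a ∧ a < b ∧ b ≤ 0 ∧
    ∀ n : ℕ, 4 ≤ n → ∀ x ∈ Set.Icc a b, domPoly (SimpleGraph.pathGraph n) x ≠ 0 := by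
  -- open conditions at the point `-1.9`
  have hgood : ∀ᶠ x in nhds (-1.9 : ℝ), Good (P x 16) (-P x 17) (P x 18) := by
    have hopen : IsOpen {x : ℝ | Good (P x 16) (-P x 17) (P x 18)} := by
      have c16 := P_cont 16
      have c17 := P_cont 17
      have c18 := P_cont 18
      refine (isOpen_lt continuous_const c16).inter ((isOpen_lt (continuous_const.mul c16) c17.neg).inter
        ((isOpen_lt c17.neg (continuous_const.mul c16)).inter
        ((isOpen_lt (continuous_const.mul c17.neg) c18).inter
        (isOpen_lt c18 (continuous_const.mul c17.neg)))))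
    exact hopen.mem_nhds good_start
  have hnz : ∀ n, 4 ≤ n → n < 16 → ∀ᶠ x in nhds (-1.9 : ℝ), P x n ≠ 0 := by
    intro n h1 h2
    exact (P_cont n).continuousAt.eventually_ne (nonzero_start n h1 h2)
  have hnz' : ∀ᶠ x in nhds (-1.9 : ℝ), ∀ n ∈ Finset.Ico 4 16, P x n ≠ 0 := by
    rw [Filter.eventually_all_finset]
    intro n hn
    exact hnz n (Finset.mem_Ico.1 hn).1 (Finset.mem_Ico.1 hn).2
  obtain ⟨ε, hε, h⟩ := Metric.eventually_nhds_iff.1 (hgood.and hnz')
  set δ := min (ε / 2) 0.005 with hδ
  have hδ0 : 0 < δ := lt_min (by linarith) (by norm_num)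
  have hδ1 : δ ≤ ε / 2 := min_le_left _ _
  have hδ2 : δ ≤ 0.005 := min_le_right _ _
  refine ⟨-1.9 - δ, -1.9 + δ, by linarith, by linarith, by linarith, ?_⟩
  intro n hn x hx
  have hx' : dist x (-1.9) < ε := by
    rw [Real.dist_eq, abs_lt]
    constructor <;> linarith [hx.1, hx.2]
  obtain ⟨hg, hz⟩ := h hx'
  rw [domPoly_path n (by omega)]
  change P x n ≠ 0
  rcases Nat.lt_or_ge n 16 with h16 | h16
  · exact hz n (Finset.mem_Ico.2 ⟨hn, h16⟩)
  · obtain ⟨m, rfl⟩ := Nat.exists_eq_add_of_le h16
    have := (good_all x (by linarith [hx.1]) (by linarith [hx.2]) hg m).1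
    rw [Nat.add_comm] at this
    intro h0
    rw [h0, mul_zero] at this
    exact lt_irrefl _ this

end Pool.Agent.Results.MP_130e73_co.PathGap
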